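import Pool.Agent.helper44.DL.EFA4

/-! # Project dl, EFA: functional form of the fixed point equation -/

namespace Pool.Agent.DL

open Matrix Complex MeasureTheory Set Filter Topology
open scoped ComplexOrder Manifold ContDiff ComplexConjugate

noncomputable section

/-- the target space of the nonlinearity -/
abbrev EFA_Z : Type := (Bool → C(Dk, ℂ)) × (Bool → C(Dk, ℝ)) × ℝ × (Fin 3 → ℂ)

/-- constants -/
def EFA_cst : ℝ →L[ℝ] (Bool → C(Dk, ℝ)) :=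
  ContinuousLinearMap.smulRight (1 : ℝ →L[ℝ] ℝ) (fun _ : Bool => (1 : C(Dk, ℝ)))

theorem EFA_cst_apply (c : ℝ) (j : Bool) (z : Dk) : EFA_cst c j z = c := by
  simp [EFA_cst]

/-- the compact operator -/
def EFA_T (TBo : (Bool → C(Dk, ℂ)) →L[ℝ] (Bool → C(Dk, ℂ))) (TUo : (Bool → C(Dk, ℝ)) →L[ℝ] (Bool → C(Dk, ℝ))) :
    EFA_Z →L[ℝ] Y3 :=
  let c1 : EFA_Z →L[ℝ] (Bool → C(Dk, ℂ)) := ContinuousLinearMap.fst ℝ _ _
  let c2 : EFA_Z →L[ℝ] (Bool → C(Dk, ℝ)) :=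
    (ContinuousLinearMap.fst ℝ _ _).comp (ContinuousLinearMap.snd ℝ _ _)
  let c3 : EFA_Z →L[ℝ] ℝ :=
    (ContinuousLinearMap.fst ℝ _ _).comp ((ContinuousLinearMap.snd ℝ _ _).comp (ContinuousLinearMap.snd ℝ _ _))
  let c4 : EFA_Z →L[ℝ] (Fin 3 → ℂ) :=
    (ContinuousLinearMap.snd ℝ _ _).comp ((ContinuousLinearMap.snd ℝ _ _).comp (ContinuousLinearMap.snd ℝ _ _))
  (TUo.comp c2 + EFA_cst.comp c3).prod ((TBo.comp c1 + EFA_Pq.comp c4).prod (c3.prod c4))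

theorem EFA_T_apply (TBo : (Bool → C(Dk, ℂ)) →L[ℝ] (Bool → C(Dk, ℂ)))
    (TUo : (Bool → C(Dk, ℝ)) →L[ℝ] (Bool → C(Dk, ℝ))) (x : EFA_Z) :
    EFA_T TBo TUo x = (TUo x.2.1 + EFA_cst x.2.2.1, TBo x.1 + EFA_Pq x.2.2.2, x.2.2.1, x.2.2.2) := rfl

theorem EFA_T_compact {TBo : (Bool → C(Dk, ℂ)) →L[ℝ] (Bool → C(Dk, ℂ))}
    {TUo : (Bool → C(Dk, ℝ)) →L[ℝ] (Bool → C(Dk, ℝ))} (hB : IsCompactOperator TBo) (hU : IsCompactOperator TUo) :
    IsCompactOperator (EFA_T TBo TUo) := by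
  let c1 : EFA_Z →L[ℝ] (Bool → C(Dk, ℂ)) := ContinuousLinearMap.fst ℝ _ _
  let c2 : EFA_Z →L[ℝ] (Bool → C(Dk, ℝ)) :=
    (ContinuousLinearMap.fst ℝ _ _).comp (ContinuousLinearMap.snd ℝ _ _)
  let c3 : EFA_Z →L[ℝ] ℝ :=
    (ContinuousLinearMap.fst ℝ _ _).comp ((ContinuousLinearMap.snd ℝ _ _).comp (ContinuousLinearMap.snd ℝ _ _))
  let c4 : EFA_Z →L[ℝ] (Fin 3 → ℂ) :=
    (ContinuousLinearMap.snd ℝ _ _).comp ((ContinuousLinearMap.snd ℝ _ _).comp (ContinuousLinearMap.snd ℝ _ _))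
  have h3 : IsCompactOperator c3 := isCompactOperator_of_locallyCompactSpace_dom c3
  have h4 : IsCompactOperator c4 := isCompactOperator_of_locallyCompactSpace_dom c4
  have k1 : IsCompactOperator (fun x : EFA_Z => TUo (c2 x) + EFA_cst (c3 x)) :=
    (hU.comp_clm c2).add (h3.clm_comp EFA_cst)
  have k2 : IsCompactOperator (fun x : EFA_Z => TBo (c1 x) + EFA_Pq (c4 x)) :=
    (hB.comp_clm c1).add (h4.clm_comp EFA_Pq)
  exact EFA_compact_prod k1 (EFA_compact_prod k2 (EFA_compact_prod h3 h4))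

theorem EFA (hKT : EKT_stmt) (hFN : EFN_stmt) (hKD : EKD_stmt) (hKC : EKC_stmt) : EFA_stmt := by
  intro D hV
  obtain ⟨TBo, TGo, TUo, cB, cU, hB, hG, hU⟩ := hKT D.κ
  obtain ⟨Λ0, hΛ0⟩ := EFA_functional ℝ (Wt D.κ) (EFA_intW hKD D.κ)
  have hΛ : ∀ k : ℕ, ∃ Λ : C(Dk, ℂ) →L[ℝ] ℂ, ∀ f, Λ f = ∫ ξ in Dk, ((Wt D.κ ξ : ℂ) * ξ ^ k) * f (pr ξ) :=
    fun k => EFA_functional ℂ _ (EFA_intWC hKD D.κ k)
  choose Λ hΛ using hΛ
  have hs1 := fun j => EFA_nem hFN EFA_H1 EFA_cdH1 (EFA_a D hV j)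
  have hs2 := fun j => EFA_nem hFN EFA_H2 EFA_cdH2 (EFA_a D hV j)
  have hs3 := fun j => EFA_nem hFN EFA_H3 EFA_cdH3 (EFA_a D hV j)
  choose S1 s1 v1 b1 using hs1
  choose S2 s2 v2 b2 using hs2
  choose S3 s3 v3 b3 using hs3
  let Mass : (Bool → C(Dk, ℝ)) →L[ℝ] ℝ :=
    Λ0.comp (ContinuousLinearMap.proj (R := ℝ) (φ := fun _ : Bool => C(Dk, ℝ)) false) +
    Λ0.comp (ContinuousLinearMap.proj (R := ℝ) (φ := fun _ : Bool => C(Dk, ℝ)) true)
  let Mom : (Bool → C(Dk, ℂ)) →L[ℝ] (Fin 3 → ℂ) := ContinuousLinearMap.pi fun k : Fin 3 =>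
    (Λ (k : ℕ)).comp (ContinuousLinearMap.proj (R := ℝ) (φ := fun _ : Bool => C(Dk, ℂ)) false) +
    (Λ (2 - (k : ℕ))).comp (ContinuousLinearMap.proj (R := ℝ) (φ := fun _ : Bool => C(Dk, ℂ)) true)
  have hMass : ∀ F : Bool → C(Dk, ℝ), Mass F = (∫ ξ in Dk, Wt D.κ ξ * F false (pr ξ)) +
      ∫ ξ in Dk, Wt D.κ ξ * F true (pr ξ) := by
    intro F
    change Λ0 (F false) + Λ0 (F true) = _
    rw [hΛ0, hΛ0]
  have hMom : ∀ (F : Bool → C(Dk, ℂ)) (k : Fin 3), Mom F k =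
      (∫ ξ in Dk, ((Wt D.κ ξ : ℂ) * F false (pr ξ)) * ξ ^ (k : ℕ)) +
      ∫ ξ in Dk, ((Wt D.κ ξ : ℂ) * F true (pr ξ)) * ξ ^ (2 - (k : ℕ)) := by
    intro F k
    change Λ (k : ℕ) (F false) + Λ (2 - (k : ℕ)) (F true) = _
    rw [hΛ, hΛ]
    congr 1
    · exact integral_congr_ae (Filter.Eventually.of_forall fun ξ => by ring)
    · exact integral_congr_ae (Filter.Eventually.of_forall fun ξ => by ring)
  -- the density identities in integrated form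
  have hmassEq : ∀ (F : Bool → C(Dk, ℝ)) (f : Bool → ℂ → ℝ),
      (∀ j, ∀ z ∈ Dk, z ^ 8 ≠ 1 → Wt D.κ z * F j (pr z) = f j z) →
      Mass F = (∫ ξ in Dk, f false ξ) + ∫ ξ in Dk, f true ξ := by
    intro F f h
    rw [hMass, integral_congr_ae (EFA_ae hKC (h false)), integral_congr_ae (EFA_ae hKC (h true))]
  have hmomEq : ∀ (F : Bool → C(Dk, ℂ)) (f : Bool → ℂ → ℂ) (k : Fin 3),
      (∀ j, ∀ z ∈ Dk, (Wt D.κ z : ℂ) * F j (pr z) = f j z) →
      Mom F k = (∫ ξ in Dk, f false ξ * ξ ^ (k : ℕ)) + ∫ ξ in Dk, f true ξ * ξ ^ (2 - (k : ℕ)) := by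
    intro F f k h
    rw [hMom]
    congr 1
    · exact integral_congr_ae (EFA_ae hKC fun z hz _ => by rw [h false z hz])
    · exact integral_congr_ae (EFA_ae hKC fun z hz _ => by rw [h true z hz])
  have hTU : ∀ (F : Bool → C(Dk, ℝ)) (f : Bool → ℂ → ℝ),
      (∀ j, ∀ z ∈ Dk, z ^ 8 ≠ 1 → Wt D.κ z * F j (pr z) = f j z) → ∀ j (z : Dk), TUo F j z = TU f j z := by
    intro F f h j z
    rw [hU]
    exact EFA_TU_congr (fun i => EFA_ae hKC (h i)) j z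
  have hTB : ∀ (F : Bool → C(Dk, ℂ)) (f : Bool → ℂ → ℂ),
      (∀ j, ∀ z ∈ Dk, z ^ 8 ≠ 1 → ((mt z)⁻¹ : ℂ) * F j (pr z) = f j z) → ∀ j (z : Dk), TBo F j z = TB f j z := by
    intro F f h j z
    rw [hB]
    exact EFA_TB_congr (fun i => EFA_ae hKC (h i)) j z
  let N : ℝ × Y3 → EFA_Z := fun x => (EFA_be TGo S1 S2 x, EFA_Fh TGo S1 S3 x,
    x.2.2.2.1 + Mass (EFA_Fh TGo S1 S3 x), x.2.2.2.2 + Mom (EFA_q S1 x))
  have hNcd : ContDiff ℝ 1 N := by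
    have c1 := EFA_q_cd s1
    have c2 := EFA_be_cd (TGo := TGo) s1 s2
    have c3 := EFA_Fh_cd (TGo := TGo) s1 s3
    have c4 : ContDiff ℝ 1 (fun x : ℝ × Y3 => x.2.2.2.1 + Mass (EFA_Fh TGo S1 S3 x)) :=
      ContDiff.add (by fun_prop) (Mass.contDiff.comp c3)
    have c5 : ContDiff ℝ 1 (fun x : ℝ × Y3 => x.2.2.2.2 + Mom (EFA_q S1 x)) :=
      ContDiff.add (by fun_prop) (Mom.contDiff.comp c1)
    exact c2.prodMk (c3.prodMk (c4.prodMk c5))
  refine ⟨EFA_Z, inferInstance, inferInstance, EFA_T TBo TUo, N, EFA_T_compact cB cU, hNcd, ?_, ?_, ?_⟩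
  · -- bounds
    have k1 : EFA_Bd N := by
      have d1 := EFA_q_bd b1
      have d2 := EFA_be_bd (TGo := TGo) b1 b2
      have d3 := EFA_Fh_bd (TGo := TGo) b1 b3
      refine d2.prod (d3.prod (EFA_Bd.prod (EFA_Bd.add ?_ ((EFA_Bd.clm Mass).comp d3))
        (EFA_Bd.add ?_ ((EFA_Bd.clm Mom).comp d1))))
      · exact EFA_bd_fst.comp (EFA_bd_snd.comp (EFA_bd_snd.comp EFA_bd_snd))
      · exact EFA_bd_snd.comp (EFA_bd_snd.comp (EFA_bd_snd.comp EFA_bd_snd))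
    intro M
    obtain ⟨M', hM'⟩ := k1 (max 1 M)
    refine ⟨M', fun τ hτ y hy => hM' _ (norm_prod_le_iff.2 ⟨?_, hy.trans (le_max_right _ _)⟩)⟩
    have : |τ| ≤ 1 := by rw [abs_of_nonneg hτ.1]; exact hτ.2
    exact (Real.norm_eq_abs τ).le.trans (this.trans (le_max_left _ _))
  · -- solutions of the fixed point equation
    intro τ _ y hy
    have e1 : ∀ j (z : Dk), TUo (EFA_Fh TGo S1 S3 (τ, y)) j z + (y.2.2.1 + Mass (EFA_Fh TGo S1 S3 (τ, y))) = y.1 j z := by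
      intro j z
      have h := congrArg (fun w : Y3 => w.1 j z) hy
      rw [← h]
      change _ = (TUo (EFA_Fh TGo S1 S3 (τ, y)) j + EFA_cst (y.2.2.1 + Mass (EFA_Fh TGo S1 S3 (τ, y))) j) z
      rw [ContinuousMap.add_apply, EFA_cst_apply]
    have e3 : y.2.2.1 + Mass (EFA_Fh TGo S1 S3 (τ, y)) = y.2.2.1 := congrArg (fun w : Y3 => w.2.2.1) hy
    have e4 : y.2.2.2 + Mom (EFA_q S1 (τ, y)) = y.2.2.2 := congrArg (fun w : Y3 => w.2.2.2) hy
    have e2 : ∀ j (z : Dk), TBo (EFA_be TGo S1 S2 (τ, y)) j z + Pq (y.2.2.2 + Mom (EFA_q S1 (τ, y))) j z = y.2.1 j z := by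
      intro j z
      have h := congrArg (fun w : Y3 => w.2.1 j z) hy
      rw [← h]
      rfl
    have e5 : Mass (EFA_Fh TGo S1 S3 (τ, y)) = 0 := by linarith
    have e6 : ∀ k, Mom (EFA_q S1 (τ, y)) k = 0 := by
      intro k
      have h := congrFun e4 k
      have h2 : y.2.2.2 k + Mom (EFA_q S1 (τ, y)) k = y.2.2.2 k := h
      simpa using h2
    rw [e3] at e1
    rw [e4] at e2
    refine ⟨EFA_gg TGo S1 (τ, y), ⟨?_, ?_, ?_, ?_, ?_, ?_, ?_⟩, ?_⟩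
    · intro j
      exact ((y.1 j).continuous.comp EFA_pr_cont).continuousOn
    · intro j
      exact ((y.2.1 j).continuous.comp EFA_pr_cont).continuousOn
    · intro j z hz h8
      exact EFA_g_eq hG hKC v1 τ y j hz h8
    · intro j z hz
      have h := e2 j ⟨z, hz⟩
      rw [hTB _ (bet (uE y) (EFA_gg TGo S1 (τ, y))) (fun i ξ hξ _ => EFA_bet_eq v2 τ y i hξ)] at h
      rw [h]
      exact EFA_bE y j ⟨z, hz⟩
    · intro j z hz
      have h := e1 j ⟨z, hz⟩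
      rw [hTU _ (Fd (D.sc τ) (uE y) (bE y) (EFA_gg TGo S1 (τ, y)))
        (fun i ξ hξ h8 => EFA_Fd_eq v3 τ y i hξ h8)] at h
      rw [h]
      exact EFA_uE y j ⟨z, hz⟩
    · rw [← hmassEq _ (Fd (D.sc τ) (uE y) (bE y) (EFA_gg TGo S1 (τ, y)))
        (fun i ξ hξ h8 => EFA_Fd_eq v3 τ y i hξ h8)]
      exact e5
    · intro k
      rw [← hmomEq _ (phi (D.sc τ) (uE y) (bE y)) k (fun i ξ hξ => EFA_phi_eq v1 τ y i hξ)]
      exact e6 k
    · -- linearised equation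
      intro v hv
      have hN' : fderiv ℝ N (τ, y) (0, v) = (fderiv ℝ (EFA_be TGo S1 S2) (τ, y) (0, v),
          fderiv ℝ (EFA_Fh TGo S1 S3) (τ, y) (0, v),
          v.2.2.1 + Mass (fderiv ℝ (EFA_Fh TGo S1 S3) (τ, y) (0, v)),
          v.2.2.2 + Mom (fderiv ℝ (EFA_q S1) (τ, y) (0, v))) := by
        have k0 := EFA_along hNcd τ y v
        have k1 := EFA_along (EFA_be_cd (TGo := TGo) s1 s2) τ y v
        have k2 := EFA_along (EFA_Fh_cd (TGo := TGo) s1 s3) τ y v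
        have k3 : HasDerivAt (fun s : ℝ => (y + s • v).2.2.1 + Mass (EFA_Fh TGo S1 S3 (τ, y + s • v)))
            (v.2.2.1 + Mass (fderiv ℝ (EFA_Fh TGo S1 S3) (τ, y) (0, v))) 0 := by
          refine HasDerivAt.add ?_ (Mass.hasFDerivAt.comp_hasDerivAt (0 : ℝ) k2)
          have : (fun s : ℝ => (y + s • v).2.2.1) = fun s : ℝ => y.2.2.1 + s • v.2.2.1 := rfl
          rw [this]
          simpa using ((hasDerivAt_id (0 : ℝ)).smul_const v.2.2.1).const_add y.2.2.1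
        have k4 : HasDerivAt (fun s : ℝ => (y + s • v).2.2.2 + Mom (EFA_q S1 (τ, y + s • v)))
            (v.2.2.2 + Mom (fderiv ℝ (EFA_q S1) (τ, y) (0, v))) 0 := by
          refine HasDerivAt.add ?_ (Mom.hasFDerivAt.comp_hasDerivAt (0 : ℝ) (EFA_along (EFA_q_cd s1) τ y v))
          have : (fun s : ℝ => (y + s • v).2.2.2) = fun s : ℝ => y.2.2.2 + s • v.2.2.2 := rfl
          rw [this]
          simpa using ((hasDerivAt_id (0 : ℝ)).smul_const v.2.2.2).const_add y.2.2.2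
        exact k0.unique (k1.prodMk (k2.prodMk (k3.prodMk k4)))
      rw [hN'] at hv
      have l1 : ∀ j (z : Dk), TUo (fderiv ℝ (EFA_Fh TGo S1 S3) (τ, y) (0, v)) j z +
          (v.2.2.1 + Mass (fderiv ℝ (EFA_Fh TGo S1 S3) (τ, y) (0, v))) = v.1 j z := by
        intro j z
        have h := congrArg (fun w : Y3 => w.1 j z) hv
        rw [← h]
        change _ = (TUo (fderiv ℝ (EFA_Fh TGo S1 S3) (τ, y) (0, v)) j +
          EFA_cst (v.2.2.1 + Mass (fderiv ℝ (EFA_Fh TGo S1 S3) (τ, y) (0, v))) j) z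
        rw [ContinuousMap.add_apply, EFA_cst_apply]
      have l3 : v.2.2.1 + Mass (fderiv ℝ (EFA_Fh TGo S1 S3) (τ, y) (0, v)) = v.2.2.1 :=
        congrArg (fun w : Y3 => w.2.2.1) hv
      have l4 : v.2.2.2 + Mom (fderiv ℝ (EFA_q S1) (τ, y) (0, v)) = v.2.2.2 :=
        congrArg (fun w : Y3 => w.2.2.2) hv
      have l2 : ∀ j (z : Dk), TBo (fderiv ℝ (EFA_be TGo S1 S2) (τ, y) (0, v)) j z +
          Pq (v.2.2.2 + Mom (fderiv ℝ (EFA_q S1) (τ, y) (0, v))) j z = v.2.1 j z := by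
        intro j z
        have h := congrArg (fun w : Y3 => w.2.1 j z) hv
        rw [← h]
        rfl
      have l5 : Mass (fderiv ℝ (EFA_Fh TGo S1 S3) (τ, y) (0, v)) = 0 := by linarith
      have l6 : ∀ k, Mom (fderiv ℝ (EFA_q S1) (τ, y) (0, v)) k = 0 := by
        intro k
        have h := congrFun l4 k
        have h2 : v.2.2.2 k + Mom (fderiv ℝ (EFA_q S1) (τ, y) (0, v)) k = v.2.2.2 k := h
        simpa using h2
      rw [l3] at l1
      rw [l4] at l2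
      refine ⟨EFA_gg' TGo S1 (τ, y) v, ⟨?_, ?_, ?_, ?_, ?_, ?_, ?_⟩⟩
      · intro j
        exact ((v.1 j).continuous.comp EFA_pr_cont).continuousOn
      · intro j
        exact ((v.2.1 j).continuous.comp EFA_pr_cont).continuousOn
      · intro j z hz h8
        exact EFA_g_eq' hG hKC v1 s1 τ y v j hz h8
      · intro j z hz
        have h := l2 j ⟨z, hz⟩
        rw [hTB _ (bet' (uE y) (EFA_gg TGo S1 (τ, y)) (uE v) (EFA_gg' TGo S1 (τ, y) v))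
          (fun i ξ hξ _ => EFA_bet_eq' v2 s1 s2 τ y v i hξ)] at h
        rw [h]
        exact EFA_bE v j ⟨z, hz⟩
      · intro j z hz
        have h := l1 j ⟨z, hz⟩
        rw [hTU _ (Fd' (D.sc τ) (uE y) (bE y) (EFA_gg TGo S1 (τ, y)) (uE v) (bE v) (EFA_gg' TGo S1 (τ, y) v))
          (fun i ξ hξ h8 => EFA_Fd_eq' v3 s1 s3 τ y v i hξ h8)] at h
        rw [h]
        exact EFA_uE v j ⟨z, hz⟩
      · rw [← hmassEq _ (Fd' (D.sc τ) (uE y) (bE y) (EFA_gg TGo S1 (τ, y)) (uE v) (bE v)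
          (EFA_gg' TGo S1 (τ, y) v)) (fun i ξ hξ h8 => EFA_Fd_eq' v3 s1 s3 τ y v i hξ h8)]
        exact l5
      · intro k
        rw [← hmomEq _ (phi' (D.sc τ) (uE y) (bE y) (uE v) (bE v)) k
          (fun i ξ hξ => EFA_phi_eq' v1 s1 τ y v i hξ)]
        exact l6 k
  · -- every solution comes from the space
    intro τ _ u b g c P hS
    let y : Y3 := (fun j => ⟨fun z => u j z, (hS.cu j).domRestrict⟩, fun j => ⟨fun z => b j z, (hS.cb j).domRestrict⟩, c, P)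
    have hu : ∀ j, ∀ z ∈ Dk, uE y j z = u j z := by
      intro j z hz
      exact EFA_uE y j ⟨z, hz⟩
    have hb : ∀ j, ∀ z ∈ Dk, bE y j z = b j z := by
      intro j z hz
      exact EFA_bE y j ⟨z, hz⟩
    have hphi : ∀ j, ∀ z ∈ Dk, phi (D.sc τ) (uE y) (bE y) j z = phi (D.sc τ) u b j z := by
      intro j z hz
      unfold phi Ls
      rw [hu j z hz, hb j z hz]
    have hgg : ∀ j, ∀ z ∈ Dk, z ^ 8 ≠ 1 → EFA_gg TGo S1 (τ, y) j z = g j z := by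
      intro j z hz h8
      rw [EFA_g_eq hG hKC v1 τ y j hz h8, hS.eg j z hz h8]
      exact EFA_TG_congr (fun i => EFA_ae hKC fun ξ hξ _ => hphi i ξ hξ) j z
    have hbet : ∀ j, ∀ z ∈ Dk, z ^ 8 ≠ 1 → ((mt z)⁻¹ : ℂ) * EFA_be TGo S1 S2 (τ, y) j (pr z) = bet u g j z := by
      intro j z hz h8
      rw [EFA_bet_eq v2 τ y j hz]
      unfold bet Ls
      rw [hu j z hz, hgg j z hz h8]
    have hFd : ∀ j, ∀ z ∈ Dk, z ^ 8 ≠ 1 → Wt D.κ z * EFA_Fh TGo S1 S3 (τ, y) j (pr z) = Fd (D.sc τ) u b g j z := by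
      intro j z hz h8
      rw [EFA_Fd_eq v3 τ y j hz h8]
      unfold Fd Ls
      rw [hu j z hz, hb j z hz, hgg j z hz h8]
    have hm : Mass (EFA_Fh TGo S1 S3 (τ, y)) = 0 := by
      rw [hmassEq _ (Fd (D.sc τ) u b g) hFd]
      exact hS.mass
    have hmo : Mom (EFA_q S1 (τ, y)) = 0 := by
      funext k
      rw [hmomEq _ (phi (D.sc τ) u b) k (fun i ξ hξ => (EFA_phi_eq v1 τ y i hξ).trans (hphi i ξ hξ))]
      exact hS.mom k
    refine ⟨y, ?_⟩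
    rw [EFA_T_apply]
    refine Prod.ext ?_ (Prod.ext ?_ (Prod.ext ?_ ?_))
    · funext j
      ext z
      change (TUo (EFA_Fh TGo S1 S3 (τ, y)) j + EFA_cst (c + Mass (EFA_Fh TGo S1 S3 (τ, y))) j) z = u j z
      rw [ContinuousMap.add_apply, EFA_cst_apply, hm, add_zero, hTU _ _ hFd]
      exact (hS.eu j z z.2).symm
    · funext j
      ext z
      change TBo (EFA_be TGo S1 S2 (τ, y)) j z + Pq (P + Mom (EFA_q S1 (τ, y))) j z = b j z
      rw [hmo, add_zero, hTB _ _ hbet]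
      exact (hS.eb j z z.2).symm
    · change c + Mass (EFA_Fh TGo S1 S3 (τ, y)) = c
      rw [hm, add_zero]
    · change P + Mom (EFA_q S1 (τ, y)) = P
      rw [hmo, add_zero]

end

end Pool.Agent.DL
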