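import Pool.Agent.helper22.DL.SpecE2

/-! # Project dl, EFA part 1: the nonlinear functions, smoothness, derivatives along lines -/

namespace Pool.Agent.DL

open Matrix Complex MeasureTheory Set Filter Topology
open scoped ComplexOrder Manifold ContDiff ComplexConjugate

noncomputable section

/-- parameters `p, r, 2 log(1+|z|²), m, s` -/
abbrev EFA_P : Type := ℂ × ℂ × ℝ × ℝ × ℝ

/-- unknowns `τ, u, b, g` -/
abbrev EFA_E : Type := ℝ × ℝ × ℂ × ℂ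

/-- `conj Q` -/
def EFA_H1 (x : EFA_P × EFA_E) : ℂ :=
  conj (QQ ((x.2.1 : ℂ) ^ 2 * x.1.1) ((x.2.1 : ℂ) ^ 3 * x.1.2.1) (x.2.2.1 - x.1.2.2.1) x.2.2.2.1)

/-- `e^{-L} conj g` -/
def EFA_H2 (x : EFA_P × EFA_E) : ℂ := (Real.exp (-(x.2.2.1 - x.1.2.2.1)) : ℂ) * conj x.2.2.2.2

/-- `m e^{-L} |g|² + R + s` -/
def EFA_H3 (x : EFA_P × EFA_E) : ℝ :=
  x.1.2.2.2.1 * (Real.exp (-(x.2.2.1 - x.1.2.2.1)) * ‖x.2.2.2.2‖ ^ 2) +
    RR ((x.2.1 : ℂ) ^ 2 * x.1.1) ((x.2.1 : ℂ) ^ 3 * x.1.2.1) (x.2.2.1 - x.1.2.2.1) x.2.2.2.1 + x.1.2.2.2.2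

section smooth

variable {X : Type} [NormedAddCommGroup X] [NormedSpace ℝ X] {n : WithTop ℕ∞}

@[fun_prop]
theorem EFA_cdOfReal {f : X → ℝ} (h : ContDiff ℝ n f) : ContDiff ℝ n (fun x => (f x : ℂ)) :=
  Complex.ofRealCLM.contDiff.comp h

@[fun_prop]
theorem EFA_cdConj {f : X → ℂ} (h : ContDiff ℝ n f) : ContDiff ℝ n (fun x => conj (f x)) :=
  Complex.conjCLE.contDiff.comp h

@[fun_prop]
theorem EFA_cdNormSq {f : X → ℂ} (h : ContDiff ℝ n f) : ContDiff ℝ n (fun x => ‖f x‖ ^ 2) :=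
  h.norm_sq ℝ

theorem EFA_cdxx {p b : X → ℂ} (hp : ContDiff ℝ n p) (hb : ContDiff ℝ n b) :
    ContDiff ℝ n (fun x => xx (p x) (b x)) := by
  unfold xx; fun_prop

theorem EFA_cdyy {p r b : X → ℂ} (hp : ContDiff ℝ n p) (hr : ContDiff ℝ n r) (hb : ContDiff ℝ n b) :
    ContDiff ℝ n (fun x => yy (p x) (r x) (b x)) := by
  unfold yy; fun_prop

theorem EFA_cdQQ {p r b : X → ℂ} {L : X → ℝ} (hp : ContDiff ℝ n p) (hr : ContDiff ℝ n r)
    (hL : ContDiff ℝ n L) (hb : ContDiff ℝ n b) :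
    ContDiff ℝ n (fun x => QQ (p x) (r x) (L x) (b x)) := by
  have h1 := EFA_cdxx hp hb
  have h2 := EFA_cdyy hp hr hb
  unfold QQ
  have h3 : ContDiff ℝ n (fun x => ((Real.exp (L x) : ℝ) : ℂ)) := EFA_cdOfReal (by fun_prop)
  have h4 : ContDiff ℝ n (fun x => ((Real.exp (2 * L x) : ℝ) : ℂ)) := EFA_cdOfReal (by fun_prop)
  have h5 := EFA_cdConj h1
  have h6 := EFA_cdConj hb
  exact ((contDiff_const.mul hb).sub (((contDiff_const.mul h3).mul h6).mul h1)).add ((h4.mul h2).mul h5)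

theorem EFA_cdRR {p r b : X → ℂ} {L : X → ℝ} (hp : ContDiff ℝ n p) (hr : ContDiff ℝ n r)
    (hL : ContDiff ℝ n L) (hb : ContDiff ℝ n b) :
    ContDiff ℝ n (fun x => RR (p x) (r x) (L x) (b x)) := by
  have h1 := EFA_cdNormSq (EFA_cdxx hp hb)
  have h2 := EFA_cdNormSq (EFA_cdyy hp hr hb)
  unfold RR
  have h3 : ContDiff ℝ n (fun x => Real.exp (L x)) := by fun_prop
  have h4 : ContDiff ℝ n (fun x => Real.exp (2 * L x)) := by fun_prop
  have h5 : ContDiff ℝ n (fun x => Real.exp (-L x)) := by fun_prop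
  exact ((h3.mul h1).add (h4.mul h2)).sub h5

end smooth

theorem EFA_cdH1 : ContDiff ℝ 1 EFA_H1 := by
  unfold EFA_H1
  refine EFA_cdConj (EFA_cdQQ ?_ ?_ ?_ ?_) <;> fun_prop

theorem EFA_cdH2 : ContDiff ℝ 1 EFA_H2 := by
  unfold EFA_H2
  refine ContDiff.mul (EFA_cdOfReal ?_) (EFA_cdConj ?_) <;> fun_prop

theorem EFA_cdH3 : ContDiff ℝ 1 EFA_H3 := by
  unfold EFA_H3
  have h1 : ContDiff ℝ 1 (fun x : EFA_P × EFA_E => ‖x.2.2.2.2‖ ^ 2) := EFA_cdNormSq (by fun_prop)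
  have h2 : ContDiff ℝ 1 (fun x : EFA_P × EFA_E =>
    RR ((x.2.1 : ℂ) ^ 2 * x.1.1) ((x.2.1 : ℂ) ^ 3 * x.1.2.1) (x.2.2.1 - x.1.2.2.1) x.2.2.2.1) := by
    refine EFA_cdRR ?_ ?_ ?_ ?_ <;> fun_prop
  have h3 : ContDiff ℝ 1 (fun x : EFA_P × EFA_E => x.1.2.2.2.1) := by fun_prop
  have h4 : ContDiff ℝ 1 (fun x : EFA_P × EFA_E => Real.exp (-(x.2.2.1 - x.1.2.2.1))) := by fun_prop
  have h5 : ContDiff ℝ 1 (fun x : EFA_P × EFA_E => x.1.2.2.2.2) := by fun_prop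
  exact ((h3.mul (h4.mul h1)).add h2).add h5

section lines

variable {L : ℝ → ℝ} {L' : ℝ} {b g : ℝ → ℂ} {b' g' : ℂ} {t : ℝ}

theorem EFA_dConj {f : ℝ → ℂ} {f' : ℂ} (h : HasDerivAt f f' t) :
    HasDerivAt (fun s => conj (f s)) (conj f') t := h.star

theorem EFA_dExp {f : ℝ → ℝ} {f' : ℝ} (h : HasDerivAt f f' t) :
    HasDerivAt (fun s => ((Real.exp (f s) : ℝ) : ℂ)) ((Real.exp (f t) : ℂ) * f') t := by
  have h1 := h.exp.ofReal_comp
  convert h1 using 1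
  push_cast
  ring

theorem EFA_dNormSq {f : ℝ → ℂ} {f' : ℂ} (h : HasDerivAt f f' t) :
    HasDerivAt (fun s => ‖f s‖ ^ 2) (2 * (conj (f t) * f').re) t := by
  have h1 := h.norm_sq
  convert h1 using 2
  rw [Complex.inner, mul_comm]

theorem EFA_dxx (p : ℂ) (hb : HasDerivAt b b' t) :
    HasDerivAt (fun s => xx p (b s)) (-3 * b t * b') t := by
  have h := ((hb.pow 2).const_mul (3 / 2 : ℂ)).const_sub p
  refine h.congr_deriv ?_
  push_cast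
  ring

theorem EFA_dyy (p r : ℂ) (hb : HasDerivAt b b' t) :
    HasDerivAt (fun s => yy p r (b s)) (2 * p * b' - 3 * b t ^ 2 * b') t := by
  have h := (((hb.const_mul (2 : ℂ)).mul_const p).const_add r).sub (hb.pow 3)
  refine h.congr_deriv ?_
  push_cast
  ring

theorem EFA_dQQ (p r : ℂ) (hL : HasDerivAt L L' t) (hb : HasDerivAt b b' t) :
    HasDerivAt (fun s => QQ p r (L s) (b s)) (QQ' p r (L t) (b t) L' b') t := by
  have hx := EFA_dxx p hb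
  have hy := EFA_dyy p r hb
  have e1 := EFA_dExp hL
  have e2 := EFA_dExp (hL.const_mul 2)
  have h := ((hb.const_mul (3 : ℂ)).sub (((e1.const_mul (3 : ℂ)).mul (EFA_dConj hb)).mul hx)).add
    ((e2.mul hy).mul (EFA_dConj hx))
  refine h.congr_deriv ?_
  unfold QQ'
  simp only [Pi.mul_apply]
  push_cast
  ring

theorem EFA_dRR (p r : ℂ) (hL : HasDerivAt L L' t) (hb : HasDerivAt b b' t) :
    HasDerivAt (fun s => RR p r (L s) (b s)) (RR' p r (L t) (b t) L' b') t := by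
  have hx := EFA_dNormSq (EFA_dxx p hb)
  have hy := EFA_dNormSq (EFA_dyy p r hb)
  have h := ((hL.exp.mul hx).add ((hL.const_mul 2).exp.mul hy)).sub (hL.neg.exp)
  refine h.congr_deriv ?_
  unfold RR'
  simp only [Pi.neg_apply]
  ring

end lines

end

end Pool.Agent.DL
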