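import Pool.Agent.helper44.DL.EFA1

/-! # Project dl, EFA part 2: Nemytskii operators, functionals, bounded maps -/

namespace Pool.Agent.DL

open Matrix Complex MeasureTheory Set Filter Topology
open scoped ComplexOrder Manifold ContDiff ComplexConjugate

noncomputable section

theorem EFA_nem (hFN : EFN_stmt) {F : Type} [NormedAddCommGroup F] [NormedSpace ℝ F]
    (H : EFA_P × EFA_E → F) (hH : ContDiff ℝ 1 H) (a : C(Dk, EFA_P)) :
    ∃ S : C(Dk, EFA_E) → C(Dk, F), ContDiff ℝ 1 S ∧ (∀ f z, S f z = H (a z, f z)) ∧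
      ∀ M : ℝ, ∃ M' : ℝ, ∀ f, ‖f‖ ≤ M → ‖S f‖ ≤ M' := by
  have h1 : Continuous (fun x : Dk × EFA_E => H (a x.1, x.2)) := hH.continuous.comp (by fun_prop)
  have h2 : Continuous (fun x : Dk × EFA_E => (fderiv ℝ H (a x.1, x.2)).comp
      (ContinuousLinearMap.inr ℝ EFA_P EFA_E)) := by
    have h3 : Continuous (fun x : Dk × EFA_E => fderiv ℝ H (a x.1, x.2)) :=
      (hH.continuous_fderiv one_ne_zero).comp (by fun_prop)
    exact h3.clm_comp continuous_const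
  obtain ⟨S, hS, hSv, -, hb⟩ := hFN Dk EFA_E F (fun z e => H (a z, e))
    (fun z e => (fderiv ℝ H (a z, e)).comp (ContinuousLinearMap.inr ℝ EFA_P EFA_E)) h1 h2 (by
      intro z e
      have h4 : HasFDerivAt H (fderiv ℝ H (a z, e)) (a z, e) :=
        (hH.differentiable one_ne_zero).differentiableAt.hasFDerivAt
      exact h4.comp e (hasFDerivAt_prodMk_right (a z) e))
  exact ⟨S, hS, hSv, hb⟩

theorem EFA_pr_cont : Continuous pr := by
  unfold pr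
  refine Continuous.subtype_mk ?_ _
  refine continuous_id.div ?_ ?_
  · fun_prop
  · intro z
    have h : (0 : ℝ) < max 1 ‖z‖ := lt_of_lt_of_le one_pos (le_max_left _ _)
    exact_mod_cast h.ne'

theorem EFA_pr (z : Dk) : pr (z : ℂ) = z := by
  obtain ⟨z, hz⟩ := z
  have h : ‖z‖ ≤ 1 := by simpa using hz
  apply Subtype.ext
  simp [pr, max_eq_left h]

theorem EFA_pr' {z : ℂ} (hz : z ∈ Dk) : pr z = ⟨z, hz⟩ := EFA_pr ⟨z, hz⟩

theorem EFA_functional (𝕜 : Type) [RCLike 𝕜] (w : ℂ → 𝕜) (hw : IntegrableOn w Dk) :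
    ∃ Λ : C(Dk, 𝕜) →L[ℝ] 𝕜, ∀ f, Λ f = ∫ ξ in Dk, w ξ * f (pr ξ) := by
  have hint : ∀ f : C(Dk, 𝕜), IntegrableOn (fun ξ => w ξ * f (pr ξ)) Dk := by
    intro f
    refine Integrable.mul_bdd (c := ‖f‖) hw ?_ ?_
    · exact (f.continuous.comp EFA_pr_cont).aestronglyMeasurable
    · exact Filter.Eventually.of_forall fun ξ => f.norm_coe_le_norm _
  let Λ0 : C(Dk, 𝕜) →ₗ[ℝ] 𝕜 :=
    { toFun := fun f => ∫ ξ in Dk, w ξ * f (pr ξ)
      map_add' := by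
        intro f g
        rw [← integral_add (hint f) (hint g)]
        refine integral_congr_ae (Filter.Eventually.of_forall fun ξ => ?_)
        simp [mul_add]
      map_smul' := by
        intro c f
        rw [RingHom.id_apply, ← integral_smul]
        refine integral_congr_ae (Filter.Eventually.of_forall fun ξ => ?_)
        simp }
  refine ⟨Λ0.mkContinuous (∫ ξ in Dk, ‖w ξ‖) ?_, fun f => rfl⟩
  intro f
  change ‖∫ ξ in Dk, w ξ * f (pr ξ)‖ ≤ (∫ ξ in Dk, ‖w ξ‖) * ‖f‖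
  refine (norm_integral_le_integral_norm _).trans ?_
  rw [← integral_mul_const]
  refine integral_mono (hint f).norm (hw.norm.mul_const _) fun ξ => ?_
  change ‖w ξ * f (pr ξ)‖ ≤ ‖w ξ‖ * ‖f‖
  rw [norm_mul]
  exact mul_le_mul_of_nonneg_left (f.norm_coe_le_norm _) (norm_nonneg _)

/-! ### bounded maps -/

/-- bounded on bounded sets -/
def EFA_Bd {X Y : Type} [NormedAddCommGroup X] [NormedAddCommGroup Y] (f : X → Y) : Prop :=
  ∀ M : ℝ, ∃ M' : ℝ, ∀ x, ‖x‖ ≤ M → ‖f x‖ ≤ M'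

section bd

variable {X Y W : Type} [NormedAddCommGroup X] [NormedAddCommGroup Y] [NormedAddCommGroup W]

theorem EFA_Bd.comp {g : Y → W} {f : X → Y} (hg : EFA_Bd g) (hf : EFA_Bd f) : EFA_Bd (fun x => g (f x)) := by
  intro M
  obtain ⟨M1, h1⟩ := hf M
  obtain ⟨M2, h2⟩ := hg M1
  exact ⟨M2, fun x hx => h2 _ (h1 x hx)⟩

theorem EFA_Bd.clm [NormedSpace ℝ X] [NormedSpace ℝ Y] (f : X →L[ℝ] Y) : EFA_Bd (fun x => f x) := by
  intro M
  refine ⟨‖f‖ * |M|, fun x hx => (f.le_opNorm x).trans ?_⟩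
  exact mul_le_mul_of_nonneg_left (hx.trans (le_abs_self M)) (norm_nonneg _)

theorem EFA_Bd.prod {f : X → Y} {g : X → W} (hf : EFA_Bd f) (hg : EFA_Bd g) : EFA_Bd (fun x => (f x, g x)) := by
  intro M
  obtain ⟨M1, h1⟩ := hf M
  obtain ⟨M2, h2⟩ := hg M
  refine ⟨max M1 M2, fun x hx => norm_prod_le_iff.2 ⟨(h1 x hx).trans (le_max_left _ _), (h2 x hx).trans (le_max_right _ _)⟩⟩

theorem EFA_Bd.add {f g : X → Y} (hf : EFA_Bd f) (hg : EFA_Bd g) : EFA_Bd (fun x => f x + g x) := by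
  intro M
  obtain ⟨M1, h1⟩ := hf M
  obtain ⟨M2, h2⟩ := hg M
  exact ⟨M1 + M2, fun x hx => (norm_add_le _ _).trans (add_le_add (h1 x hx) (h2 x hx))⟩

theorem EFA_Bd.pi {f : X → Bool → Y} (hf : ∀ j, EFA_Bd (fun x => f x j)) : EFA_Bd f := by
  intro M
  obtain ⟨M1, h1⟩ := hf false M
  obtain ⟨M2, h2⟩ := hf true M
  refine ⟨max (max M1 M2) 0, fun x hx => (pi_norm_le_iff_of_nonneg (le_max_right _ _)).2 fun j => ?_⟩
  cases j
  · exact (h1 x hx).trans ((le_max_left _ _).trans (le_max_left _ _))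
  · exact (h2 x hx).trans ((le_max_right _ _).trans (le_max_left _ _))

end bd

theorem EFA_compact_prod {X Y W : Type} [NormedAddCommGroup X] [NormedAddCommGroup Y] [NormedAddCommGroup W]
    {f : X → Y} {g : X → W} (hf : IsCompactOperator f) (hg : IsCompactOperator g) :
    IsCompactOperator (fun x => (f x, g x)) := by
  obtain ⟨K, hK, hKf⟩ := hf
  obtain ⟨K', hK', hKg⟩ := hg
  refine ⟨K ×ˢ K', hK.prod hK', ?_⟩
  filter_upwards [hKf, hKg] with x hx hx'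
  exact ⟨hx, hx'⟩

/-- evaluation at `j`, `z` -/
def EFA_ev (𝕜 : Type) [RCLike 𝕜] (j : Bool) (z : Dk) : (Bool → C(Dk, 𝕜)) →L[ℝ] 𝕜 :=
  (ContinuousMap.evalCLM ℝ z).comp (ContinuousLinearMap.proj (R := ℝ) (φ := fun _ : Bool => C(Dk, 𝕜)) j)

theorem EFA_ev_apply (𝕜 : Type) [RCLike 𝕜] (j : Bool) (z : Dk) (f : Bool → C(Dk, 𝕜)) :
    EFA_ev 𝕜 j z f = f j z := rfl

/-- the space of the data -/
abbrev EFA_X : Type := ℝ × (Bool → C(Dk, ℝ)) × (Bool → C(Dk, ℂ)) × (Bool → C(Dk, ℂ))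

/-- the embedding -/
def EFA_emb (j : Bool) : EFA_X →L[ℝ] C(Dk, EFA_E) :=
  ((ContinuousLinearMap.compLeftContinuous ℝ Dk (ContinuousLinearMap.inl ℝ ℝ (ℝ × ℂ × ℂ))).comp
    ((ContinuousLinearMap.smulRight (1 : ℝ →L[ℝ] ℝ) (1 : C(Dk, ℝ))).comp
      (ContinuousLinearMap.fst ℝ ℝ ((Bool → C(Dk, ℝ)) × (Bool → C(Dk, ℂ)) × (Bool → C(Dk, ℂ)))))) +
  ((ContinuousLinearMap.compLeftContinuous ℝ Dk ((ContinuousLinearMap.inr ℝ ℝ (ℝ × ℂ × ℂ)).comp
      (ContinuousLinearMap.inl ℝ ℝ (ℂ × ℂ)))).comp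
    ((ContinuousLinearMap.proj (R := ℝ) (φ := fun _ : Bool => C(Dk, ℝ)) j).comp
      ((ContinuousLinearMap.fst ℝ (Bool → C(Dk, ℝ)) ((Bool → C(Dk, ℂ)) × (Bool → C(Dk, ℂ)))).comp
        (ContinuousLinearMap.snd ℝ ℝ ((Bool → C(Dk, ℝ)) × (Bool → C(Dk, ℂ)) × (Bool → C(Dk, ℂ))))))) +
  ((ContinuousLinearMap.compLeftContinuous ℝ Dk ((ContinuousLinearMap.inr ℝ ℝ (ℝ × ℂ × ℂ)).comp
      ((ContinuousLinearMap.inr ℝ ℝ (ℂ × ℂ)).comp (ContinuousLinearMap.inl ℝ ℂ ℂ)))).comp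
    ((ContinuousLinearMap.proj (R := ℝ) (φ := fun _ : Bool => C(Dk, ℂ)) j).comp
      ((ContinuousLinearMap.fst ℝ (Bool → C(Dk, ℂ)) (Bool → C(Dk, ℂ))).comp
        ((ContinuousLinearMap.snd ℝ (Bool → C(Dk, ℝ)) ((Bool → C(Dk, ℂ)) × (Bool → C(Dk, ℂ)))).comp
        (ContinuousLinearMap.snd ℝ ℝ ((Bool → C(Dk, ℝ)) × (Bool → C(Dk, ℂ)) × (Bool → C(Dk, ℂ)))))))) +
  ((ContinuousLinearMap.compLeftContinuous ℝ Dk ((ContinuousLinearMap.inr ℝ ℝ (ℝ × ℂ × ℂ)).comp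
      ((ContinuousLinearMap.inr ℝ ℝ (ℂ × ℂ)).comp (ContinuousLinearMap.inr ℝ ℂ ℂ)))).comp
    ((ContinuousLinearMap.proj (R := ℝ) (φ := fun _ : Bool => C(Dk, ℂ)) j).comp
      ((ContinuousLinearMap.snd ℝ (Bool → C(Dk, ℂ)) (Bool → C(Dk, ℂ))).comp
        ((ContinuousLinearMap.snd ℝ (Bool → C(Dk, ℝ)) ((Bool → C(Dk, ℂ)) × (Bool → C(Dk, ℂ)))).comp
        (ContinuousLinearMap.snd ℝ ℝ ((Bool → C(Dk, ℝ)) × (Bool → C(Dk, ℂ)) × (Bool → C(Dk, ℂ))))))))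

theorem EFA_emb_apply (j : Bool) (x : EFA_X) (z : Dk) :
    EFA_emb j x z = (x.1, x.2.1 j z, x.2.2.1 j z, x.2.2.2 j z) := by
  simp [EFA_emb]

/-- the polynomials -/
def EFA_Pq : (Fin 3 → ℂ) →L[ℝ] (Bool → C(Dk, ℂ)) :=
  LinearMap.toContinuousLinearMap
    { toFun := fun P j => ⟨fun z => Pq P j z, by
        unfold Pq; cases j <;> simp only [cond_true, cond_false] <;> fun_prop⟩
      map_add' := by
        intro P P'
        funext j
        ext z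
        cases j <;> simp [Pq] <;> ring
      map_smul' := by
        intro c P
        funext j
        ext z
        cases j <;> simp [Pq] <;> ring }

theorem EFA_Pq_apply (P : Fin 3 → ℂ) (j : Bool) (z : Dk) : EFA_Pq P j z = Pq P j z := rfl

end

end Pool.Agent.DL
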