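import Pool.Agent.helper44.DL.EFA2

/-! # Project dl, EFA part 3: the map N, congruences -/

namespace Pool.Agent.DL

open Matrix Complex MeasureTheory Set Filter Topology
open scoped ComplexOrder Manifold ContDiff ComplexConjugate

noncomputable section

theorem EFA_ae (hKC : EKC_stmt) {E : Type} {f f' : ℂ → E} (h : ∀ z ∈ Dk, z ^ 8 ≠ 1 → f z = f' z) :
    f =ᵐ[volume.restrict Dk] f' := by
  have h0 : volume {z : ℂ | z ^ 8 = 1} = 0 := hKC.2.2.1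
  have h1 : ∀ᵐ z ∂(volume.restrict Dk), z ^ 8 ≠ 1 := by
    have : ∀ᵐ z : ℂ, z ^ 8 ≠ 1 := by
      rw [ae_iff]
      simpa using h0
    exact ae_restrict_of_ae this
  have h2 : ∀ᵐ z ∂(volume.restrict Dk), z ∈ Dk :=
    ae_restrict_mem Metric.isClosed_closedBall.measurableSet
  filter_upwards [h1, h2] with z hz hz'
  exact h z hz' hz

theorem EFA_TG_congr {φ φ' : Bool → ℂ → ℂ} (h : ∀ j, φ j =ᵐ[volume.restrict Dk] φ' j) (j : Bool) (z : ℂ) :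
    TG φ j z = TG φ' j z := by
  unfold TG
  have h1 : ∫ ξ in Dk, φ j ξ / (z - ξ) = ∫ ξ in Dk, φ' j ξ / (z - ξ) :=
    integral_congr_ae ((h j).mono fun ξ hξ => by simp only [hξ])
  have h2 : ∫ ξ in Dk, ξ ^ 3 * φ (!j) ξ / (1 - z * ξ) = ∫ ξ in Dk, ξ ^ 3 * φ' (!j) ξ / (1 - z * ξ) :=
    integral_congr_ae ((h (!j)).mono fun ξ hξ => by simp only [hξ])
  rw [h1, h2]

theorem EFA_TB_congr {φ φ' : Bool → ℂ → ℂ} (h : ∀ j, φ j =ᵐ[volume.restrict Dk] φ' j) (j : Bool) (z : ℂ) :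
    TB φ j z = TB φ' j z := by
  unfold TB
  have h1 : ∫ ξ in Dk, φ j ξ / (z - ξ) = ∫ ξ in Dk, φ' j ξ / (z - ξ) :=
    integral_congr_ae ((h j).mono fun ξ hξ => by simp only [hξ])
  have h2 : ∫ ξ in Dk, φ (!j) ξ / (1 - z * ξ) = ∫ ξ in Dk, φ' (!j) ξ / (1 - z * ξ) :=
    integral_congr_ae ((h (!j)).mono fun ξ hξ => by simp only [hξ])
  rw [h1, h2]

theorem EFA_TU_congr {φ φ' : Bool → ℂ → ℝ} (h : ∀ j, φ j =ᵐ[volume.restrict Dk] φ' j) (j : Bool) (z : ℂ) :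
    TU φ j z = TU φ' j z := by
  unfold TU
  have h1 : ∫ ξ in Dk, Real.log ‖z - ξ‖ * φ j ξ = ∫ ξ in Dk, Real.log ‖z - ξ‖ * φ' j ξ :=
    integral_congr_ae ((h j).mono fun ξ hξ => by simp only [hξ])
  have h2 : ∫ ξ in Dk, Real.log ‖1 - z * ξ‖ * φ (!j) ξ = ∫ ξ in Dk, Real.log ‖1 - z * ξ‖ * φ' (!j) ξ :=
    integral_congr_ae ((h (!j)).mono fun ξ hξ => by simp only [hξ])
  rw [h1, h2]

theorem EFA_intW (hKD : EKD_stmt) (κ : ℝ) : IntegrableOn (Wt κ) Dk := by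
  obtain ⟨C, -, -, -, h, -⟩ := hKD 2 two_pos
  have h1 : IntegrableOn (fun ξ : ℂ => Wt 1 ξ) Dk :=
    h.1.mono_set (Metric.closedBall_subset_ball (by norm_num))
  have h2 : Wt κ = fun ξ => κ * Wt 1 ξ := by
    funext ξ
    unfold Wt
    ring
  rw [h2]
  exact h1.const_mul κ

theorem EFA_intWC (hKD : EKD_stmt) (κ : ℝ) (k : ℕ) : IntegrableOn (fun ξ : ℂ => (Wt κ ξ : ℂ) * ξ ^ k) Dk := by
  have h1 : IntegrableOn (fun ξ : ℂ => (Wt κ ξ : ℂ)) Dk := (EFA_intW hKD κ).ofReal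
  refine Integrable.mul_bdd (c := 1) h1 (by fun_prop) ?_
  filter_upwards [ae_restrict_mem Metric.isClosed_closedBall.measurableSet] with ξ hξ
  have : ‖ξ‖ ≤ 1 := by simpa using hξ
  rw [norm_pow]
  exact pow_le_one₀ (norm_nonneg _) this

/-- the parameters -/
def EFA_a (D : Dat) (hV : D.Valid) (j : Bool) : C(Dk, EFA_P) :=
  ⟨fun z => (D.p j z, D.r j z, 2 * Real.log (1 + ‖(z : ℂ)‖ ^ 2), ‖1 - (z : ℂ) ^ 8‖ ^ (1 / 2 : ℝ) / D.κ,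
    D.s j z + 2 * ‖1 - (z : ℂ) ^ 8‖ / (D.κ * (1 + ‖(z : ℂ)‖ ^ 2) ^ 2)), by
    have h1 : Continuous (D.p j) := (hV.hp j).continuous
    have h2 : Continuous (D.r j) := (hV.hr j).continuous
    have h3 : Continuous (D.s j) := hV.cs j
    have hκ : D.κ ≠ 0 := by have := hV.hκ; intro h; linarith
    have hv : Continuous fun z : Dk => (z : ℂ) := continuous_subtype_val
    have h4 : Continuous fun z : Dk => 2 * Real.log (1 + ‖(z : ℂ)‖ ^ 2) := by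
      refine continuous_const.mul (Continuous.log (by fun_prop) fun z => ?_)
      positivity
    have h5 : Continuous fun z : Dk => ‖1 - (z : ℂ) ^ 8‖ ^ (1 / 2 : ℝ) / D.κ :=
      (Continuous.rpow_const (by fun_prop) fun z => Or.inr (by norm_num)).div_const _
    have h6 : Continuous fun z : Dk => D.s j z + 2 * ‖1 - (z : ℂ) ^ 8‖ / (D.κ * (1 + ‖(z : ℂ)‖ ^ 2) ^ 2) := by
      refine (h3.comp hv).add (Continuous.div (by fun_prop) (by fun_prop) fun z => ?_)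
      have : (0 : ℝ) < (1 + ‖(z : ℂ)‖ ^ 2) ^ 2 := by positivity
      exact mul_ne_zero hκ this.ne'
    exact (h1.comp hv).prodMk ((h2.comp hv).prodMk (h4.prodMk (h5.prodMk h6)))⟩

section defs

variable (TGo : (Bool → C(Dk, ℂ)) →L[ℝ] (Bool → C(Dk, ℂ)))
  (S1 S2 : Bool → C(Dk, EFA_E) → C(Dk, ℂ)) (S3 : Bool → C(Dk, EFA_E) → C(Dk, ℝ))

/-- `conj Q` -/
def EFA_q (x : ℝ × Y3) : Bool → C(Dk, ℂ) := fun j => S1 j (EFA_emb j (x.1, x.2.1, x.2.2.1, 0))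

/-- `mt g` -/
def EFA_gh (x : ℝ × Y3) : Bool → C(Dk, ℂ) := TGo (EFA_q S1 x)

/-- `mt bet` -/
def EFA_be (x : ℝ × Y3) : Bool → C(Dk, ℂ) :=
  fun j => S2 j (EFA_emb j (x.1, x.2.1, x.2.2.1, EFA_gh TGo S1 x))

/-- `Fd / W` -/
def EFA_Fh (x : ℝ × Y3) : Bool → C(Dk, ℝ) :=
  fun j => S3 j (EFA_emb j (x.1, x.2.1, x.2.2.1, EFA_gh TGo S1 x))

/-- `g` -/
def EFA_gg (x : ℝ × Y3) (j : Bool) (z : ℂ) : ℂ := ((mt z)⁻¹ : ℝ) * EFA_gh TGo S1 x j (pr z)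

variable {TGo S1 S2 S3}

theorem EFA_q_cd (h1 : ∀ j, ContDiff ℝ 1 (S1 j)) : ContDiff ℝ 1 (EFA_q S1) := by
  rw [contDiff_pi]
  intro j
  refine (h1 j).comp ((EFA_emb j).contDiff.comp ?_)
  fun_prop

theorem EFA_gh_cd (h1 : ∀ j, ContDiff ℝ 1 (S1 j)) : ContDiff ℝ 1 (EFA_gh TGo S1) :=
  TGo.contDiff.comp (EFA_q_cd h1)

theorem EFA_be_cd (h1 : ∀ j, ContDiff ℝ 1 (S1 j)) (h2 : ∀ j, ContDiff ℝ 1 (S2 j)) :
    ContDiff ℝ 1 (EFA_be TGo S1 S2) := by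
  rw [contDiff_pi]
  intro j
  refine (h2 j).comp ((EFA_emb j).contDiff.comp ?_)
  have := EFA_gh_cd (TGo := TGo) h1
  fun_prop

theorem EFA_Fh_cd (h1 : ∀ j, ContDiff ℝ 1 (S1 j)) (h3 : ∀ j, ContDiff ℝ 1 (S3 j)) :
    ContDiff ℝ 1 (EFA_Fh TGo S1 S3) := by
  rw [contDiff_pi]
  intro j
  refine (h3 j).comp ((EFA_emb j).contDiff.comp ?_)
  have := EFA_gh_cd (TGo := TGo) h1
  fun_prop

theorem EFA_bd_id {X : Type} [NormedAddCommGroup X] : EFA_Bd (fun x : X => x) := fun M => ⟨M, fun x hx => hx⟩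

theorem EFA_bd_fst {X Y : Type} [NormedAddCommGroup X] [NormedAddCommGroup Y] : EFA_Bd (fun x : X × Y => x.1) :=
  fun M => ⟨M, fun x hx => (norm_fst_le x).trans hx⟩

theorem EFA_bd_snd {X Y : Type} [NormedAddCommGroup X] [NormedAddCommGroup Y] : EFA_Bd (fun x : X × Y => x.2) :=
  fun M => ⟨M, fun x hx => (norm_snd_le x).trans hx⟩

theorem EFA_bd_const {X Y : Type} [NormedAddCommGroup X] [NormedAddCommGroup Y] (y : Y) :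
    EFA_Bd (fun _ : X => y) := fun _ => ⟨‖y‖, fun _ _ => le_rfl⟩

theorem EFA_q_bd (h1 : ∀ j, EFA_Bd (S1 j)) : EFA_Bd (EFA_q S1) := by
  refine EFA_Bd.pi fun j => ?_
  refine (h1 j).comp ((EFA_Bd.clm (EFA_emb j)).comp ?_)
  exact EFA_bd_fst.prod ((EFA_bd_fst.comp EFA_bd_snd).prod
    ((EFA_bd_fst.comp (EFA_bd_snd.comp EFA_bd_snd)).prod (EFA_bd_const 0)))

theorem EFA_gh_bd (h1 : ∀ j, EFA_Bd (S1 j)) : EFA_Bd (EFA_gh TGo S1) := (EFA_Bd.clm TGo).comp (EFA_q_bd h1)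

theorem EFA_be_bd (h1 : ∀ j, EFA_Bd (S1 j)) (h2 : ∀ j, EFA_Bd (S2 j)) : EFA_Bd (EFA_be TGo S1 S2) := by
  refine EFA_Bd.pi fun j => ?_
  refine (h2 j).comp ((EFA_Bd.clm (EFA_emb j)).comp ?_)
  exact EFA_bd_fst.prod ((EFA_bd_fst.comp EFA_bd_snd).prod
    ((EFA_bd_fst.comp (EFA_bd_snd.comp EFA_bd_snd)).prod (EFA_gh_bd h1)))

theorem EFA_Fh_bd (h1 : ∀ j, EFA_Bd (S1 j)) (h3 : ∀ j, EFA_Bd (S3 j)) : EFA_Bd (EFA_Fh TGo S1 S3) := by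
  refine EFA_Bd.pi fun j => ?_
  refine (h3 j).comp ((EFA_Bd.clm (EFA_emb j)).comp ?_)
  exact EFA_bd_fst.prod ((EFA_bd_fst.comp EFA_bd_snd).prod
    ((EFA_bd_fst.comp (EFA_bd_snd.comp EFA_bd_snd)).prod (EFA_gh_bd h1)))

end defs

section values

variable {D : Dat} {hV : D.Valid} {TGo : (Bool → C(Dk, ℂ)) →L[ℝ] (Bool → C(Dk, ℂ))}
  {S1 S2 : Bool → C(Dk, EFA_E) → C(Dk, ℂ)} {S3 : Bool → C(Dk, EFA_E) → C(Dk, ℝ)}

theorem EFA_uE (y : Y3) (j : Bool) (z : Dk) : uE y j z = y.1 j z := by rw [uE, EFA_pr]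

theorem EFA_bE (y : Y3) (j : Bool) (z : Dk) : bE y j z = y.2.1 j z := by rw [bE, EFA_pr]

theorem EFA_q_val (v1 : ∀ j f z, S1 j f z = EFA_H1 (EFA_a D hV j z, f z)) (τ : ℝ) (y : Y3) (j : Bool) (z : Dk) :
    EFA_q S1 (τ, y) j z = conj (QQ ((D.sc τ).p j z) ((D.sc τ).r j z) (Ls (uE y j) z) (bE y j z)) := by
  change S1 j _ z = _
  rw [v1, EFA_emb_apply, EFA_bE]
  unfold Ls
  rw [EFA_uE]
  rfl

theorem EFA_be_val (v2 : ∀ j f z, S2 j f z = EFA_H2 (EFA_a D hV j z, f z)) (τ : ℝ) (y : Y3) (j : Bool) (z : Dk) :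
    EFA_be TGo S1 S2 (τ, y) j z = (Real.exp (-(Ls (uE y j) z)) : ℂ) * conj (EFA_gh TGo S1 (τ, y) j z) := by
  change S2 j _ z = _
  rw [v2, EFA_emb_apply]
  unfold Ls
  rw [EFA_uE]
  rfl

theorem EFA_Fh_val (v3 : ∀ j f z, S3 j f z = EFA_H3 (EFA_a D hV j z, f z)) (τ : ℝ) (y : Y3) (j : Bool) (z : Dk) :
    EFA_Fh TGo S1 S3 (τ, y) j z = ‖1 - (z : ℂ) ^ 8‖ ^ (1 / 2 : ℝ) / D.κ *
      (Real.exp (-(Ls (uE y j) z)) * ‖EFA_gh TGo S1 (τ, y) j z‖ ^ 2) +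
      RR ((D.sc τ).p j z) ((D.sc τ).r j z) (Ls (uE y j) z) (bE y j z) +
      (D.s j z + 2 * ‖1 - (z : ℂ) ^ 8‖ / (D.κ * (1 + ‖(z : ℂ)‖ ^ 2) ^ 2)) := by
  change S3 j _ z = _
  rw [v3, EFA_emb_apply, EFA_bE]
  unfold Ls
  rw [EFA_uE]
  rfl

end values

/-- algebra of the weights -/
theorem EFA_weights {N κ : ℝ} (hN : 0 < N) (hκ : 0 < κ) (x y : ℝ) :
    κ / N * (N ^ (1 / 2 : ℝ) / κ * x + y) = ((N ^ (1 / 4 : ℝ))⁻¹) ^ 2 * x + κ / N * y := by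
  have h1 : N = (N ^ (1 / 4 : ℝ)) ^ 4 := by
    rw [← Real.rpow_natCast, ← Real.rpow_mul hN.le]; norm_num
  have h2 : N ^ (1 / 2 : ℝ) = (N ^ (1 / 4 : ℝ)) ^ 2 := by
    rw [← Real.rpow_natCast, ← Real.rpow_mul hN.le]; norm_num
  have h3 : 0 < N ^ (1 / 4 : ℝ) := Real.rpow_pos_of_pos hN _
  rw [h2]
  set t := N ^ (1 / 4 : ℝ) with ht
  rw [h1]
  field_simp

end

end Pool.Agent.DL
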