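import Pool.Agent.helper44.DL.EFA3

/-! # Project dl, EFA part 4: the relations between the densities -/

namespace Pool.Agent.DL

open Matrix Complex MeasureTheory Set Filter Topology
open scoped ComplexOrder Manifold ContDiff ComplexConjugate

noncomputable section

section rel

variable {D : Dat} {hV : D.Valid} {TGo : (Bool → C(Dk, ℂ)) →L[ℝ] (Bool → C(Dk, ℂ))}
  {S1 S2 : Bool → C(Dk, EFA_E) → C(Dk, ℂ)} {S3 : Bool → C(Dk, EFA_E) → C(Dk, ℝ)}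

theorem EFA_Npos {z : ℂ} (hz : z ^ 8 ≠ 1) : 0 < ‖1 - z ^ 8‖ := by
  rw [norm_pos_iff, sub_ne_zero]
  exact fun h => hz h.symm

theorem EFA_mtpos {z : ℂ} (hz : z ^ 8 ≠ 1) : 0 < mt z := Real.rpow_pos_of_pos (EFA_Npos hz) _

theorem EFA_phi_eq (v1 : ∀ j f z, S1 j f z = EFA_H1 (EFA_a D hV j z, f z)) (τ : ℝ) (y : Y3) (j : Bool)
    {z : ℂ} (hz : z ∈ Dk) :
    (Wt D.κ z : ℂ) * EFA_q S1 (τ, y) j (pr z) = phi (D.sc τ) (uE y) (bE y) j z := by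
  rw [EFA_pr' hz, EFA_q_val v1]
  rfl

theorem EFA_g_eq (hG : ∀ f j (z : Dk), TGo f j z = (mt z : ℂ) * TG (fun i ξ => (Wt D.κ ξ : ℂ) * f i (pr ξ)) j z)
    (hKC : EKC_stmt)
    (v1 : ∀ j f z, S1 j f z = EFA_H1 (EFA_a D hV j z, f z)) (τ : ℝ) (y : Y3) (j : Bool)
    {z : ℂ} (hz : z ∈ Dk) (h8 : z ^ 8 ≠ 1) :
    EFA_gg TGo S1 (τ, y) j z = TG (phi (D.sc τ) (uE y) (bE y)) j z := by
  unfold EFA_gg EFA_gh
  rw [EFA_pr' hz, hG]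
  have h1 : TG (fun i ξ => (Wt D.κ ξ : ℂ) * EFA_q S1 (τ, y) i (pr ξ)) j z =
      TG (phi (D.sc τ) (uE y) (bE y)) j z :=
    EFA_TG_congr (fun i => EFA_ae hKC fun ξ hξ _ => EFA_phi_eq v1 τ y i hξ) j z
  rw [h1]
  have h2 := (EFA_mtpos h8).ne'
  push_cast
  rw [← mul_assoc, inv_mul_cancel₀ (by exact_mod_cast h2), one_mul]

theorem EFA_bet_eq (v2 : ∀ j f z, S2 j f z = EFA_H2 (EFA_a D hV j z, f z)) (τ : ℝ) (y : Y3) (j : Bool)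
    {z : ℂ} (hz : z ∈ Dk) :
    ((mt z)⁻¹ : ℂ) * EFA_be TGo S1 S2 (τ, y) j (pr z) = bet (uE y) (EFA_gg TGo S1 (τ, y)) j z := by
  rw [EFA_pr' hz, EFA_be_val v2]
  unfold bet EFA_gg
  rw [EFA_pr' hz, map_mul, Complex.conj_ofReal]
  push_cast
  ring

theorem EFA_Fd_eq (v3 : ∀ j f z, S3 j f z = EFA_H3 (EFA_a D hV j z, f z)) (τ : ℝ) (y : Y3) (j : Bool)
    {z : ℂ} (hz : z ∈ Dk) (h8 : z ^ 8 ≠ 1) :
    Wt D.κ z * EFA_Fh TGo S1 S3 (τ, y) j (pr z) = Fd (D.sc τ) (uE y) (bE y) (EFA_gg TGo S1 (τ, y)) j z := by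
  have hκ : 0 < D.κ := by linarith [hV.hκ]
  have hN := EFA_Npos h8
  rw [EFA_pr' hz, EFA_Fh_val v3]
  unfold Fd EFA_gg Wt
  rw [EFA_pr' hz]
  simp only [add_assoc]
  rw [EFA_weights hN hκ, norm_mul, Complex.norm_real, mul_pow, Real.norm_of_nonneg (inv_nonneg.2 (EFA_mtpos h8).le)]
  have e1 : (D.sc τ).κ = D.κ := rfl
  have e2 : (D.sc τ).s = D.s := rfl
  rw [e1, e2]
  unfold mt
  have h3 : (0 : ℝ) < (1 + ‖z‖ ^ 2) ^ 2 := by positivity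
  field_simp
  ring

end rel

section lin

variable {D : Dat} {hV : D.Valid} {TGo : (Bool → C(Dk, ℂ)) →L[ℝ] (Bool → C(Dk, ℂ))}
  {S1 S2 : Bool → C(Dk, EFA_E) → C(Dk, ℂ)} {S3 : Bool → C(Dk, EFA_E) → C(Dk, ℝ)}

theorem EFA_line (y v : Y3) (τ : ℝ) : HasDerivAt (fun s : ℝ => ((τ, y + s • v) : ℝ × Y3)) ((0, v) : ℝ × Y3) 0 := by
  have h1 : HasDerivAt (fun s : ℝ => y + s • v) v 0 := by
    have := ((hasDerivAt_id (0 : ℝ)).smul_const v).const_add y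
    simpa using this
  exact (hasDerivAt_const (0 : ℝ) τ).prodMk h1

/-- derivative along the line of a differentiable map -/
theorem EFA_along {W : Type} [NormedAddCommGroup W] [NormedSpace ℝ W] {f : ℝ × Y3 → W} (hf : ContDiff ℝ 1 f)
    (τ : ℝ) (y v : Y3) :
    HasDerivAt (fun s : ℝ => f (τ, y + s • v)) (fderiv ℝ f (τ, y) (0, v)) 0 := by
  have h1 : HasFDerivAt f (fderiv ℝ f (τ, y)) (τ, y + (0 : ℝ) • v) := by
    rw [zero_smul, add_zero]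
    exact (hf.differentiable one_ne_zero).differentiableAt.hasFDerivAt
  exact h1.comp_hasDerivAt (0 : ℝ) (EFA_line y v τ)

theorem EFA_along_ev {𝕜 : Type} [RCLike 𝕜] {f : ℝ × Y3 → (Bool → C(Dk, 𝕜))} (hf : ContDiff ℝ 1 f)
    (τ : ℝ) (y v : Y3) (j : Bool) (z : Dk) :
    HasDerivAt (fun s : ℝ => f (τ, y + s • v) j z) (fderiv ℝ f (τ, y) (0, v) j z) 0 := by
  have h1 := EFA_along hf τ y v
  have h2 := (EFA_ev 𝕜 j z).hasFDerivAt.comp_hasDerivAt (0 : ℝ) h1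
  exact h2

theorem EFA_dL (y v : Y3) (j : Bool) (z : Dk) :
    HasDerivAt (fun s : ℝ => Ls (uE (y + s • v) j) z) (uE v j z) 0 := by
  have h1 : ∀ s : ℝ, Ls (uE (y + s • v) j) z = Ls (uE y j) z + s * uE v j z := by
    intro s
    unfold Ls
    rw [EFA_uE, EFA_uE, EFA_uE]
    have : (y + s • v).1 j z = y.1 j z + s * v.1 j z := rfl
    rw [this]
    ring
  simp only [h1]
  have := ((hasDerivAt_id (0 : ℝ)).mul_const (uE v j z)).const_add (Ls (uE y j) z)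
  simpa using this

theorem EFA_db (y v : Y3) (j : Bool) (z : Dk) :
    HasDerivAt (fun s : ℝ => bE (y + s • v) j z) (bE v j z) 0 := by
  have h1 : ∀ s : ℝ, bE (y + s • v) j z = bE y j z + (s : ℂ) * bE v j z := by
    intro s
    rw [EFA_bE, EFA_bE, EFA_bE]
    have : (y + s • v).2.1 j z = y.2.1 j z + s • v.2.1 j z := rfl
    rw [this, Complex.real_smul]
  simp only [h1]
  have := (((hasDerivAt_id (0 : ℝ)).ofReal_comp).mul_const (bE v j z)).const_add (bE y j z)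
  simpa using this

theorem EFA_zero (y v : Y3) : y + (0 : ℝ) • v = y := by rw [zero_smul, add_zero]

theorem EFA_q' (v1 : ∀ j f z, S1 j f z = EFA_H1 (EFA_a D hV j z, f z)) (h1 : ∀ j, ContDiff ℝ 1 (S1 j))
    (τ : ℝ) (y v : Y3) (j : Bool) (z : Dk) :
    fderiv ℝ (EFA_q S1) (τ, y) (0, v) j z = conj (QQ' ((D.sc τ).p j z) ((D.sc τ).r j z) (Ls (uE y j) z)
      (bE y j z) (uE v j z) (bE v j z)) := by
  have k1 := EFA_along_ev (EFA_q_cd h1) τ y v j z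
  simp only [EFA_q_val v1] at k1
  have k2 := EFA_dConj (EFA_dQQ ((D.sc τ).p j z) ((D.sc τ).r j z) (EFA_dL y v j z) (EFA_db y v j z))
  rw [EFA_zero] at k2
  exact k1.unique k2

theorem EFA_gh' (h1 : ∀ j, ContDiff ℝ 1 (S1 j)) (τ : ℝ) (y v : Y3) :
    fderiv ℝ (EFA_gh TGo S1) (τ, y) (0, v) = TGo (fderiv ℝ (EFA_q S1) (τ, y) (0, v)) := by
  have k1 := EFA_along (EFA_gh_cd (TGo := TGo) h1) τ y v
  have k2 := TGo.hasFDerivAt.comp_hasDerivAt (0 : ℝ) (EFA_along (EFA_q_cd h1) τ y v)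
  exact k1.unique k2

theorem EFA_be' (v2 : ∀ j f z, S2 j f z = EFA_H2 (EFA_a D hV j z, f z)) (h1 : ∀ j, ContDiff ℝ 1 (S1 j))
    (h2 : ∀ j, ContDiff ℝ 1 (S2 j)) (τ : ℝ) (y v : Y3) (j : Bool) (z : Dk) :
    fderiv ℝ (EFA_be TGo S1 S2) (τ, y) (0, v) j z = (Real.exp (-(Ls (uE y j) z)) : ℂ) *
      (conj (fderiv ℝ (EFA_gh TGo S1) (τ, y) (0, v) j z) - uE v j z * conj (EFA_gh TGo S1 (τ, y) j z)) := by
  have k1 := EFA_along_ev (EFA_be_cd (TGo := TGo) h1 h2) τ y v j z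
  simp only [EFA_be_val v2] at k1
  have k2 := (EFA_dExp (EFA_dL y v j z).neg).mul (EFA_dConj (EFA_along_ev (EFA_gh_cd (TGo := TGo) h1) τ y v j z))
  refine (k1.unique k2).trans ?_
  simp only [EFA_zero, Pi.neg_apply]
  push_cast
  ring

theorem EFA_Fh' (v3 : ∀ j f z, S3 j f z = EFA_H3 (EFA_a D hV j z, f z)) (h1 : ∀ j, ContDiff ℝ 1 (S1 j))
    (h3 : ∀ j, ContDiff ℝ 1 (S3 j)) (τ : ℝ) (y v : Y3) (j : Bool) (z : Dk) :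
    fderiv ℝ (EFA_Fh TGo S1 S3) (τ, y) (0, v) j z = ‖1 - (z : ℂ) ^ 8‖ ^ (1 / 2 : ℝ) / D.κ *
      (Real.exp (-(Ls (uE y j) z)) * (2 * (conj (EFA_gh TGo S1 (τ, y) j z) *
        fderiv ℝ (EFA_gh TGo S1) (τ, y) (0, v) j z).re - uE v j z * ‖EFA_gh TGo S1 (τ, y) j z‖ ^ 2)) +
      RR' ((D.sc τ).p j z) ((D.sc τ).r j z) (Ls (uE y j) z) (bE y j z) (uE v j z) (bE v j z) := by
  have k1 := EFA_along_ev (EFA_Fh_cd (TGo := TGo) h1 h3) τ y v j z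
  simp only [EFA_Fh_val v3] at k1
  have g1 := EFA_along_ev (EFA_gh_cd (TGo := TGo) h1) τ y v j z
  have k2 := ((((EFA_dL y v j z).neg.exp.mul (EFA_dNormSq g1)).const_mul
    (‖1 - (z : ℂ) ^ 8‖ ^ (1 / 2 : ℝ) / D.κ)).add
    (EFA_dRR ((D.sc τ).p j z) ((D.sc τ).r j z) (EFA_dL y v j z) (EFA_db y v j z))).add_const
    (D.s j z + 2 * ‖1 - (z : ℂ) ^ 8‖ / (D.κ * (1 + ‖(z : ℂ)‖ ^ 2) ^ 2))
  refine (k1.unique k2).trans ?_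
  simp only [EFA_zero, Pi.neg_apply]
  ring

/-- the linearised `g` -/
def EFA_gg' (TGo : (Bool → C(Dk, ℂ)) →L[ℝ] (Bool → C(Dk, ℂ))) (S1 : Bool → C(Dk, EFA_E) → C(Dk, ℂ))
    (x : ℝ × Y3) (v : Y3) (j : Bool) (z : ℂ) : ℂ :=
  ((mt z)⁻¹ : ℝ) * fderiv ℝ (EFA_gh TGo S1) x (0, v) j (pr z)

theorem EFA_phi_eq' (v1 : ∀ j f z, S1 j f z = EFA_H1 (EFA_a D hV j z, f z)) (h1 : ∀ j, ContDiff ℝ 1 (S1 j))
    (τ : ℝ) (y v : Y3) (j : Bool) {z : ℂ} (hz : z ∈ Dk) :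
    (Wt D.κ z : ℂ) * fderiv ℝ (EFA_q S1) (τ, y) (0, v) j (pr z) =
      phi' (D.sc τ) (uE y) (bE y) (uE v) (bE v) j z := by
  rw [EFA_pr' hz, EFA_q' v1 h1]
  rfl

theorem EFA_g_eq' (hG : ∀ f j (z : Dk), TGo f j z = (mt z : ℂ) * TG (fun i ξ => (Wt D.κ ξ : ℂ) * f i (pr ξ)) j z)
    (hKC : EKC_stmt) (v1 : ∀ j f z, S1 j f z = EFA_H1 (EFA_a D hV j z, f z)) (h1 : ∀ j, ContDiff ℝ 1 (S1 j))
    (τ : ℝ) (y v : Y3) (j : Bool) {z : ℂ} (hz : z ∈ Dk) (h8 : z ^ 8 ≠ 1) :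
    EFA_gg' TGo S1 (τ, y) v j z = TG (phi' (D.sc τ) (uE y) (bE y) (uE v) (bE v)) j z := by
  unfold EFA_gg'
  rw [EFA_gh' h1, EFA_pr' hz, hG]
  have h1 : TG (fun i ξ => (Wt D.κ ξ : ℂ) * fderiv ℝ (EFA_q S1) (τ, y) (0, v) i (pr ξ)) j z =
      TG (phi' (D.sc τ) (uE y) (bE y) (uE v) (bE v)) j z :=
    EFA_TG_congr (fun i => EFA_ae hKC fun ξ hξ _ => EFA_phi_eq' v1 h1 τ y v i hξ) j z
  rw [h1]
  have h2 := (EFA_mtpos h8).ne'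
  push_cast
  rw [← mul_assoc, inv_mul_cancel₀ (by exact_mod_cast h2), one_mul]

theorem EFA_bet_eq' (v2 : ∀ j f z, S2 j f z = EFA_H2 (EFA_a D hV j z, f z)) (h1 : ∀ j, ContDiff ℝ 1 (S1 j))
    (h2 : ∀ j, ContDiff ℝ 1 (S2 j)) (τ : ℝ) (y v : Y3) (j : Bool) {z : ℂ} (hz : z ∈ Dk) :
    ((mt z)⁻¹ : ℂ) * fderiv ℝ (EFA_be TGo S1 S2) (τ, y) (0, v) j (pr z) =
      bet' (uE y) (EFA_gg TGo S1 (τ, y)) (uE v) (EFA_gg' TGo S1 (τ, y) v) j z := by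
  rw [EFA_pr' hz, EFA_be' v2 h1 h2]
  unfold bet' EFA_gg EFA_gg'
  rw [EFA_pr' hz, map_mul, map_mul, Complex.conj_ofReal]
  push_cast
  ring

theorem EFA_Fd_eq' (v3 : ∀ j f z, S3 j f z = EFA_H3 (EFA_a D hV j z, f z)) (h1 : ∀ j, ContDiff ℝ 1 (S1 j))
    (h3 : ∀ j, ContDiff ℝ 1 (S3 j)) (τ : ℝ) (y v : Y3) (j : Bool) {z : ℂ} (hz : z ∈ Dk) (h8 : z ^ 8 ≠ 1) :
    Wt D.κ z * fderiv ℝ (EFA_Fh TGo S1 S3) (τ, y) (0, v) j (pr z) =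
      Fd' (D.sc τ) (uE y) (bE y) (EFA_gg TGo S1 (τ, y)) (uE v) (bE v) (EFA_gg' TGo S1 (τ, y) v) j z := by
  have hκ : 0 < D.κ := by linarith [hV.hκ]
  have hN := EFA_Npos h8
  rw [EFA_pr' hz, EFA_Fh' v3 h1 h3]
  unfold Fd' EFA_gg EFA_gg' Wt
  rw [EFA_pr' hz, EFA_weights hN hκ, norm_mul, Complex.norm_real, mul_pow,
    Real.norm_of_nonneg (inv_nonneg.2 (EFA_mtpos h8).le), map_mul, Complex.conj_ofReal]
  have e1 : (D.sc τ).κ = D.κ := rfl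
  rw [e1]
  have e3 : ∀ (a : ℝ) (w w' : ℂ), ((a : ℂ) * w * ((a : ℂ) * w')).re = a ^ 2 * (w * w').re := by
    intro a w w'
    have : (a : ℂ) * w * ((a : ℂ) * w') = ((a ^ 2 : ℝ) : ℂ) * (w * w') := by push_cast; ring
    rw [this, Complex.re_ofReal_mul]
  rw [e3]
  unfold mt
  ring

end lin

end

end Pool.Agent.DL
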